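import Mathlib

set_option autoImplicit false

/-!
Operator-valued weighted shifts on `ℓ²(E)` and the test-vector inequality for quadratically
hyponormal shifts.
-/

open scoped InnerProductSpace ComplexOrder

namespace Pool.Agent.X297.CH

variable {E : Type*} [NormedAddCommGroup E] [InnerProductSpace ℂ E] [CompleteSpace E]

/-- `ℓ²(E)`, the square-summable sequences in `E`. -/
abbrev SeqSpace (E : Type*) [NormedAddCommGroup E] : Type _ := lp (fun _ : ℕ => E) 2

/-- `W` is the weighted shift `(x₀, x₁, …) ↦ (0, A₀ x₀, A₁ x₁, …)`. -/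
def IsWeightedShift (A : ℕ → E →L[ℂ] E) (W : SeqSpace E →L[ℂ] SeqSpace E) : Prop :=
  ∀ x : SeqSpace E, W x 0 = 0 ∧ ∀ n, W x (n + 1) = A n (x n)

/-- `T* T - T T* ≥ 0`, for an operator `T` on a complex Hilbert space. -/
def IsHyponormal {H : Type*} [NormedAddCommGroup H] [InnerProductSpace ℂ H] [CompleteSpace H]
    (T : H →L[ℂ] H) : Prop := 0 ≤ star T * T - T * star T

theorem norm_sq_hasSum (y : SeqSpace E) : HasSum (fun n => ‖y n‖ ^ 2) (‖y‖ ^ 2) := by
  have h := lp.hasSum_norm (p := 2) (by norm_num) y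
  simpa using h

theorem sum_le (y : SeqSpace E) (s : Finset ℕ) : ∑ n ∈ s, ‖y n‖ ^ 2 ≤ ‖y‖ ^ 2 :=
  sum_le_hasSum s (fun _ _ => by positivity) (norm_sq_hasSum y)

theorem norm_sq_eq (y : SeqSpace E) (s : Finset ℕ) (h : ∀ n, n ∉ s → y n = 0) :
    ‖y‖ ^ 2 = ∑ n ∈ s, ‖y n‖ ^ 2 := by
  refine (norm_sq_hasSum y).unique (hasSum_sum_of_ne_finset_zero ?_)
  intro n hn
  rw [h n hn]
  simp

theorem hypo_le {T : SeqSpace E →L[ℂ] SeqSpace E} (hT : IsHyponormal T) (h : SeqSpace E) :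
    ‖(star T) h‖ ^ 2 ≤ ‖T h‖ ^ 2 := by
  have h1 := (ContinuousLinearMap.nonneg_iff_isPositive _).1 hT
  have h2 := h1.re_inner_nonneg_right h
  have e1 : ⟪h, (star T * T - T * star T) h⟫_ℂ = ⟪T h, T h⟫_ℂ - ⟪(star T) h, (star T) h⟫_ℂ := by
    have a1 : ⟪h, (star T) (T h)⟫_ℂ = ⟪T h, T h⟫_ℂ :=
      ContinuousLinearMap.adjoint_inner_right T h (T h)
    have a2 : ⟪h, T ((star T) h)⟫_ℂ = ⟪(star T) h, (star T) h⟫_ℂ :=
      (ContinuousLinearMap.adjoint_inner_left T ((star T) h) h).symm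
    have a3 : (star T * T - T * star T) h = (star T) (T h) - T ((star T) h) := rfl
    rw [a3, inner_sub_right, a1, a2]
  rw [e1, inner_self_eq_norm_sq_to_K, inner_self_eq_norm_sq_to_K] at h2
  have h3 : 0 ≤ ‖T h‖ ^ 2 - ‖(star T) h‖ ^ 2 := by
    have : RCLike.re (((‖T h‖ : ℝ) : ℂ) ^ 2 - ((‖(star T) h‖ : ℝ) : ℂ) ^ 2)
        = ‖T h‖ ^ 2 - ‖(star T) h‖ ^ 2 := by
      rw [← Complex.ofReal_pow, ← Complex.ofReal_pow, ← Complex.ofReal_sub]
      exact Complex.ofReal_re _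
    rw [← this]
    exact h2
  linarith

/-- The sequence with `u` at place `n` and `0` elsewhere. -/
noncomputable def sgl (n : ℕ) (u : E) : SeqSpace E := lp.single (E := fun _ : ℕ => E) 2 n u

theorem sgl_apply (n : ℕ) (u : E) (m : ℕ) : (sgl n u) m = if m = n then u else 0 := by
  unfold sgl
  by_cases h : m = n
  · subst h
    rw [if_pos rfl]
    exact lp.single_apply_self (E := fun _ : ℕ => E) 2 m u
  · rw [if_neg h]
    exact lp.single_apply_ne (E := fun _ : ℕ => E) 2 n u h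

theorem shift_single {A : ℕ → E →L[ℂ] E} {W : SeqSpace E →L[ℂ] SeqSpace E}
    (hW : IsWeightedShift A W) (n : ℕ) (u : E) :
    W (sgl n u) = sgl (n + 1) (A n u) := by
  apply lp.ext
  funext m
  cases m with
  | zero =>
    rw [(hW _).1]
    have := sgl_apply (n + 1) (A n u) 0
    rw [if_neg (by omega)] at this
    exact this.symm
  | succ m =>
    rw [(hW _).2 m]
    have e1 := sgl_apply n u m
    have e2 := sgl_apply (n + 1) (A n u) (m + 1)
    by_cases hm : m = n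
    · subst hm
      rw [if_pos rfl] at e1 e2
      rw [e1]
      exact e2.symm
    · rw [if_neg hm] at e1
      rw [if_neg (by omega)] at e2
      rw [e1, map_zero]
      exact e2.symm

theorem adj_apply {A : ℕ → E →L[ℂ] E} {W : SeqSpace E →L[ℂ] SeqSpace E}
    (hW : IsWeightedShift A W) (hA : ∀ n, (A n).IsPositive) (y : SeqSpace E) (n : ℕ) :
    (star W) y n = A n (y (n + 1)) := by
  refine ext_inner_right ℂ fun u => ?_
  have a0 : ∀ (f : SeqSpace E) (m : ℕ) (v : E), ⟪f, sgl m v⟫_ℂ = ⟪f m, v⟫_ℂ := by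
    intro f m v
    exact lp.inner_single_right (𝕜 := ℂ) (G := fun _ : ℕ => E) m v f
  have a1 : ⟪(star W) y, sgl n u⟫_ℂ = ⟪y, W (sgl n u)⟫_ℂ :=
    ContinuousLinearMap.adjoint_inner_left W (sgl n u) y
  rw [← a0, a1, shift_single hW, a0]
  exact ((hA n).isSymmetric _ _).symm

end Pool.Agent.X297.CH
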