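import Pool.Agent.X297.CH.Core

set_option autoImplicit false

open scoped InnerProductSpace ComplexOrder

namespace Pool.Agent.X297.CH

variable {E : Type*} [NormedAddCommGroup E] [InnerProductSpace ℂ E] [CompleteSpace E]

theorem T_zero {A : ℕ → E →L[ℂ] E} {W : SeqSpace E →L[ℂ] SeqSpace E}
    (hW : IsWeightedShift A W) (c : ℂ) (h : SeqSpace E) : (W + c • W ^ 2) h 0 = 0 := by
  have e : (W + c • W ^ 2) h = W h + c • W (W h) := by
    rw [pow_two]; rfl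
  rw [e]
  have e2 : (W h + c • W (W h)) 0 = W h 0 + c • (W (W h)) 0 := rfl
  rw [e2, (hW h).1, (hW (W h)).1, smul_zero, add_zero]

theorem T_succ {A : ℕ → E →L[ℂ] E} {W : SeqSpace E →L[ℂ] SeqSpace E}
    (hW : IsWeightedShift A W) (c : ℂ) (h : SeqSpace E) (m : ℕ) :
    (W + c • W ^ 2) h (m + 1) = A m (h m + c • (W h) m) := by
  have e : (W + c • W ^ 2) h = W h + c • W (W h) := by
    rw [pow_two]; rfl
  rw [e]
  have e2 : (W h + c • W (W h)) (m + 1) = W h (m + 1) + c • (W (W h)) (m + 1) := rfl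
  rw [e2, (hW h).2, (hW (W h)).2, map_add, map_smul]

theorem starT_apply {A : ℕ → E →L[ℂ] E} {W : SeqSpace E →L[ℂ] SeqSpace E}
    (hW : IsWeightedShift A W) (hA : ∀ n, (A n).IsPositive) (ε : ℝ) (y : SeqSpace E) (n : ℕ) :
    (star (W + (ε : ℂ) • W ^ 2)) y n = A n (y (n + 1) + (ε : ℂ) • A (n + 1) (y (n + 2))) := by
  have e0 : star (W + (ε : ℂ) • W ^ 2) = star W + (ε : ℂ) • (star W * star W) := by
    rw [star_add, star_smul, pow_two, star_mul]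
    congr 2
    exact Complex.conj_ofReal ε
  rw [e0]
  have e1 : (star W + (ε : ℂ) • (star W * star W)) y
      = (star W) y + (ε : ℂ) • (star W) ((star W) y) := rfl
  rw [e1]
  have e2 : ((star W) y + (ε : ℂ) • (star W) ((star W) y)) n
      = (star W) y n + (ε : ℂ) • ((star W) ((star W) y)) n := rfl
  rw [e2, adj_apply hW hA, adj_apply hW hA, adj_apply hW hA, map_add, map_smul]

/-- The test vector. -/
noncomputable def tv (j : ℕ) (u0 u1 u2 u3 u4 : E) : SeqSpace E :=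
  sgl j u0 + sgl (j + 1) u1 + sgl (j + 2) u2 + sgl (j + 3) u3 + sgl (j + 4) u4

theorem tv_apply (j : ℕ) (u0 u1 u2 u3 u4 : E) (n : ℕ) :
    tv j u0 u1 u2 u3 u4 n = (if n = j then u0 else 0) + (if n = j + 1 then u1 else 0)
      + (if n = j + 2 then u2 else 0) + (if n = j + 3 then u3 else 0)
      + (if n = j + 4 then u4 else 0) := by
  have e : tv j u0 u1 u2 u3 u4 n = (sgl j u0) n + (sgl (j + 1) u1) n + (sgl (j + 2) u2) n
      + (sgl (j + 3) u3) n + (sgl (j + 4) u4) n := rfl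
  rw [e, sgl_apply, sgl_apply, sgl_apply, sgl_apply, sgl_apply]

theorem tv0 (j : ℕ) (u0 u1 u2 u3 u4 : E) : tv j u0 u1 u2 u3 u4 j = u0 := by
  rw [tv_apply]; simp

theorem tv1 (j : ℕ) (u0 u1 u2 u3 u4 : E) : tv j u0 u1 u2 u3 u4 (j + 1) = u1 := by
  rw [tv_apply]; simp

theorem tv2 (j : ℕ) (u0 u1 u2 u3 u4 : E) : tv j u0 u1 u2 u3 u4 (j + 2) = u2 := by
  rw [tv_apply]; simp

theorem tv3 (j : ℕ) (u0 u1 u2 u3 u4 : E) : tv j u0 u1 u2 u3 u4 (j + 3) = u3 := by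
  rw [tv_apply]; simp

theorem tv4 (j : ℕ) (u0 u1 u2 u3 u4 : E) : tv j u0 u1 u2 u3 u4 (j + 4) = u4 := by
  rw [tv_apply]; simp

theorem tv_out (j : ℕ) (u0 u1 u2 u3 u4 : E) (n : ℕ) (hn : n < j ∨ j + 4 < n) :
    tv j u0 u1 u2 u3 u4 n = 0 := by
  rw [tv_apply, if_neg (by omega), if_neg (by omega), if_neg (by omega), if_neg (by omega),
    if_neg (by omega)]
  simp

theorem Wtv_out {A : ℕ → E →L[ℂ] E} {W : SeqSpace E →L[ℂ] SeqSpace E}
    (hW : IsWeightedShift A W) (j : ℕ) (u0 u1 u2 u3 u4 : E) (n : ℕ)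
    (hn : n < j + 1 ∨ j + 5 < n) : W (tv j u0 u1 u2 u3 u4) n = 0 := by
  cases n with
  | zero => exact (hW _).1
  | succ m => rw [(hW _).2, tv_out _ _ _ _ _ _ m (by omega), map_zero]

theorem Ttv_norm {A : ℕ → E →L[ℂ] E} {W : SeqSpace E →L[ℂ] SeqSpace E}
    (hW : IsWeightedShift A W) (c : ℂ) (j : ℕ) (u0 u1 u2 u3 u4 : E) :
    ‖(W + c • W ^ 2) (tv j u0 u1 u2 u3 u4)‖ ^ 2
      = ‖A j u0‖ ^ 2 + ‖A (j + 1) (u1 + c • A j u0)‖ ^ 2
        + ‖A (j + 2) (u2 + c • A (j + 1) u1)‖ ^ 2 + ‖A (j + 3) (u3 + c • A (j + 2) u2)‖ ^ 2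
        + ‖A (j + 4) (u4 + c • A (j + 3) u3)‖ ^ 2 + ‖A (j + 5) (c • A (j + 4) u4)‖ ^ 2 := by
  have h0 : ∀ n, n ∉ Finset.Ico (j + 1) (j + 1 + 6) →
      (W + c • W ^ 2) (tv j u0 u1 u2 u3 u4) n = 0 := by
    intro n hn
    rw [Finset.mem_Ico] at hn
    cases n with
    | zero => exact T_zero hW c _
    | succ m =>
      rw [T_succ hW, tv_out _ _ _ _ _ _ m (by omega), Wtv_out hW _ _ _ _ _ _ m (by omega)]
      simp
  rw [norm_sq_eq _ _ h0, Finset.sum_Ico_eq_sum_range]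
  have hs : j + 1 + 6 - (j + 1) = 6 := by omega
  rw [hs]
  simp only [Finset.sum_range_succ, Finset.sum_range_zero, zero_add]
  have c0 : (W + c • W ^ 2) (tv j u0 u1 u2 u3 u4) (j + 1 + 0) = A j u0 := by
    have : j + 1 + 0 = j + 1 := rfl
    rw [this, T_succ hW, tv0, Wtv_out hW _ _ _ _ _ _ j (by omega)]
    simp
  have c1 : (W + c • W ^ 2) (tv j u0 u1 u2 u3 u4) (j + 1 + 1) = A (j + 1) (u1 + c • A j u0) := by
    rw [T_succ hW, tv1, (hW _).2, tv0]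
  have c2 : (W + c • W ^ 2) (tv j u0 u1 u2 u3 u4) (j + 1 + 2)
      = A (j + 2) (u2 + c • A (j + 1) u1) := by
    have : j + 1 + 2 = (j + 2) + 1 := by omega
    rw [this, T_succ hW, tv2]
    have : j + 2 = (j + 1) + 1 := by omega
    rw [show (W (tv j u0 u1 u2 u3 u4)) (j + 2) = A (j + 1) u1 by
      rw [this, (hW _).2, tv1]]
  have c3 : (W + c • W ^ 2) (tv j u0 u1 u2 u3 u4) (j + 1 + 3)
      = A (j + 3) (u3 + c • A (j + 2) u2) := by
    have : j + 1 + 3 = (j + 3) + 1 := by omega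
    rw [this, T_succ hW, tv3]
    have : j + 3 = (j + 2) + 1 := by omega
    rw [show (W (tv j u0 u1 u2 u3 u4)) (j + 3) = A (j + 2) u2 by
      rw [this, (hW _).2, tv2]]
  have c4 : (W + c • W ^ 2) (tv j u0 u1 u2 u3 u4) (j + 1 + 4)
      = A (j + 4) (u4 + c • A (j + 3) u3) := by
    have : j + 1 + 4 = (j + 4) + 1 := by omega
    rw [this, T_succ hW, tv4]
    have : j + 4 = (j + 3) + 1 := by omega
    rw [show (W (tv j u0 u1 u2 u3 u4)) (j + 4) = A (j + 3) u3 by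
      rw [this, (hW _).2, tv3]]
  have c5 : (W + c • W ^ 2) (tv j u0 u1 u2 u3 u4) (j + 1 + 5)
      = A (j + 5) (c • A (j + 4) u4) := by
    have : j + 1 + 5 = (j + 5) + 1 := by omega
    rw [this, T_succ hW, tv_out _ _ _ _ _ _ (j + 5) (by omega)]
    have : j + 5 = (j + 4) + 1 := by omega
    rw [show (W (tv j u0 u1 u2 u3 u4)) (j + 5) = A (j + 4) u4 by
      rw [this, (hW _).2, tv4], zero_add]
  rw [c0, c1, c2, c3, c4, c5]

theorem starTtv {A : ℕ → E →L[ℂ] E} {W : SeqSpace E →L[ℂ] SeqSpace E}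
    (hW : IsWeightedShift A W) (hA : ∀ n, (A n).IsPositive) (ε : ℝ) (j : ℕ)
    (u0 u1 u2 u3 u4 : E) :
    ‖A (j + 1) (u2 + (ε : ℂ) • A (j + 2) u3)‖ ^ 2 + ‖A (j + 2) (u3 + (ε : ℂ) • A (j + 3) u4)‖ ^ 2
      + ‖A (j + 3) u4‖ ^ 2
      + (if 1 ≤ j then ‖A (j - 1) (u0 + (ε : ℂ) • A j u1)‖ ^ 2 else 0)
      ≤ ‖(star (W + (ε : ℂ) • W ^ 2)) (tv j u0 u1 u2 u3 u4)‖ ^ 2 := by
  have r1 : (star (W + (ε : ℂ) • W ^ 2)) (tv j u0 u1 u2 u3 u4) (j + 1)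
      = A (j + 1) (u2 + (ε : ℂ) • A (j + 2) u3) := by
    rw [starT_apply hW hA, show j + 1 + 1 = j + 2 by omega, show j + 1 + 2 = j + 3 by omega,
      tv2, tv3]
  have r2 : (star (W + (ε : ℂ) • W ^ 2)) (tv j u0 u1 u2 u3 u4) (j + 2)
      = A (j + 2) (u3 + (ε : ℂ) • A (j + 3) u4) := by
    rw [starT_apply hW hA, show j + 2 + 1 = j + 3 by omega, show j + 2 + 2 = j + 4 by omega,
      tv3, tv4]
  have r3 : (star (W + (ε : ℂ) • W ^ 2)) (tv j u0 u1 u2 u3 u4) (j + 3) = A (j + 3) u4 := by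
    rw [starT_apply hW hA, show j + 3 + 1 = j + 4 by omega, show j + 3 + 2 = j + 5 by omega,
      tv4, tv_out _ _ _ _ _ _ (j + 5) (by omega)]
    simp
  by_cases hj : 1 ≤ j
  · rw [if_pos hj]
    obtain ⟨i, rfl⟩ : ∃ i, j = i + 1 := ⟨j - 1, by omega⟩
    have r0 : (star (W + (ε : ℂ) • W ^ 2)) (tv (i + 1) u0 u1 u2 u3 u4) i
        = A i (u0 + (ε : ℂ) • A (i + 1) u1) := by
      rw [starT_apply hW hA, tv0, show i + 2 = i + 1 + 1 by omega, tv1]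
    have h := sum_le ((star (W + (ε : ℂ) • W ^ 2)) (tv (i + 1) u0 u1 u2 u3 u4))
      {i, i + 1 + 1, i + 1 + 2, i + 1 + 3}
    rw [Finset.sum_insert (by simp only [Finset.mem_insert, Finset.mem_singleton]; omega),
      Finset.sum_insert (by simp), Finset.sum_insert (by simp),
      Finset.sum_singleton, r0, r1, r2, r3] at h
    rw [Nat.add_sub_cancel]
    linarith
  · rw [if_neg hj]
    have h := sum_le ((star (W + (ε : ℂ) • W ^ 2)) (tv j u0 u1 u2 u3 u4))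
      {j + 1, j + 2, j + 3}
    rw [Finset.sum_insert (by simp), Finset.sum_insert (by simp),
      Finset.sum_singleton, r1, r2, r3] at h
    linarith

theorem norm_smul_sq (r : ℝ) (x : E) : ‖(r : ℂ) • x‖ ^ 2 = r ^ 2 * ‖x‖ ^ 2 := by
  rw [norm_smul, mul_pow, Complex.norm_real, Real.norm_eq_abs, sq_abs]

theorem step {A : ℕ → E →L[ℂ] E} {W : SeqSpace E →L[ℂ] SeqSpace E}
    (hW : IsWeightedShift A W) (hA : ∀ n, (A n).IsPositive)
    (hq : ∀ ε : ℝ, IsHyponormal (W + (ε : ℂ) • W ^ 2)) (j : ℕ) (x v : E) (b : ℝ) (hb : 0 < b)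
    (h1 : A (j + 1) x = (b : ℂ) • x) (h2 : A (j + 2) x = (b : ℂ) • x) (hv : A j v = x) :
    A (j + 3) (A (j + 3) x) = ((b ^ 2 : ℝ) : ℂ) • x ∧
      (1 ≤ j → A (j - 1) (((b ^ 2 : ℝ) : ℂ) • v - A j x) = 0) := by
  set c : E →L[ℂ] E := A (j + 3) with hc
  set Y : E := A (j + 2) (c (c x)) with hY
  set P : ℝ := if 1 ≤ j then ‖A (j - 1) (((b ^ 2 : ℝ) : ℂ) • v - A j x)‖ ^ 2 else 0 with hP
  have hP0 : 0 ≤ P := by
    rw [hP]; split_ifs <;> positivity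
  have hre : RCLike.re ⟪x, Y⟫_ℂ = b * ‖c x‖ ^ 2 := by
    have e1 : ⟪x, Y⟫_ℂ = ⟪A (j + 2) x, c (c x)⟫_ℂ := by
      rw [hY]
      exact ((hA (j + 2)).isSymmetric x (c (c x))).symm
    have e2 : ⟪x, c (c x)⟫_ℂ = ⟪c x, c x⟫_ℂ := ((hA (j + 3)).isSymmetric x (c x)).symm
    rw [e1, h2, inner_smul_left, e2, inner_self_eq_norm_sq_to_K, Complex.conj_ofReal]
    have : (b : ℂ) * ((‖c x‖ : ℝ) : ℂ) ^ 2 = ((b * ‖c x‖ ^ 2 : ℝ) : ℂ) := by push_cast; ring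
    have h3 : RCLike.re ((b : ℂ) * ((‖c x‖ : ℝ) : ℂ) ^ 2) = b * ‖c x‖ ^ 2 := by
      rw [this]; exact Complex.ofReal_re _
    exact h3
  have hre2 : RCLike.re ⟪c (c x), x⟫_ℂ = ‖c x‖ ^ 2 := by
    have e2 : ⟪c (c x), x⟫_ℂ = ⟪c x, c x⟫_ℂ := (hA (j + 3)).isSymmetric (c x) x
    rw [e2]
    exact inner_self_eq_norm_sq (𝕜 := ℂ) (c x)
  have hD : ‖c (c x) - ((b ^ 2 : ℝ) : ℂ) • x‖ ^ 2
      = ‖c (c x)‖ ^ 2 - 2 * b ^ 2 * ‖c x‖ ^ 2 + b ^ 4 * ‖x‖ ^ 2 := by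
    rw [norm_sub_sq (𝕜 := ℂ), norm_smul_sq, inner_smul_right]
    have h3 : RCLike.re (((b ^ 2 : ℝ) : ℂ) * ⟪c (c x), x⟫_ℂ) = b ^ 2 * ‖c x‖ ^ 2 := by
      rw [← hre2]
      exact Complex.re_ofReal_mul _ _
    rw [h3]
    ring
  have key : ∀ ε : ℝ, 0 < ε →
      ‖c (c x) - ((b ^ 2 : ℝ) : ℂ) • x‖ ^ 2 + P
        ≤ ε ^ 2 * (b ^ 6 * ‖x‖ ^ 2 + ‖A (j + 5) (A (j + 4) (c x))‖ ^ 2) := by
    intro ε hε
    set u0 : E := ((ε ^ 2 * b ^ 3 : ℝ) : ℂ) • v with hu0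
    set u1 : E := ((-(ε * b) : ℝ) : ℂ) • x with hu1
    set u4 : E := ((ε ^ 2 * b : ℝ) : ℂ) • c x with hu4
    have hmain := (starTtv hW hA ε j u0 u1 x u1 u4).trans
      (hypo_le (hq ε) (tv j u0 u1 x u1 u4))
    rw [Ttv_norm hW] at hmain
    have a0 : A j u0 = ((ε ^ 2 * b ^ 3 : ℝ) : ℂ) • x := by rw [hu0, map_smul, hv]
    have a1 : A (j + 1) (u1 + (ε : ℂ) • A j u0) = (((-(ε * b) + ε ^ 3 * b ^ 3) * b : ℝ) : ℂ) • x := by
      rw [a0, hu1, smul_smul, ← add_smul, map_smul, h1, smul_smul]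
      congr 1
      push_cast; ring
    have a2 : A (j + 2) (x + (ε : ℂ) • A (j + 1) u1) = (((1 - ε ^ 2 * b ^ 2) * b : ℝ) : ℂ) • x := by
      have : x + (ε : ℂ) • A (j + 1) u1 = ((1 - ε ^ 2 * b ^ 2 : ℝ) : ℂ) • x := by
        rw [hu1, map_smul, h1, smul_smul, smul_smul]
        nth_rewrite 1 [← one_smul ℂ x]
        rw [← add_smul]
        congr 1
        push_cast; ring
      rw [this, map_smul, h2, smul_smul]
      congr 1
      push_cast; ring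
    have a3 : u1 + (ε : ℂ) • A (j + 2) x = 0 := by
      rw [hu1, h2, smul_smul, ← add_smul]
      have : ((-(ε * b) : ℝ) : ℂ) + (ε : ℂ) * (b : ℂ) = 0 := by push_cast; ring
      rw [this, zero_smul]
    have a4 : u4 + (ε : ℂ) • c u1 = 0 := by
      rw [hu4, hu1, map_smul, smul_smul, ← add_smul]
      have : ((ε ^ 2 * b : ℝ) : ℂ) + (ε : ℂ) * ((-(ε * b) : ℝ) : ℂ) = 0 := by push_cast; ring
      rw [this, zero_smul]
    have a5 : A (j + 5) ((ε : ℂ) • A (j + 4) u4)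
        = ((ε ^ 3 * b : ℝ) : ℂ) • A (j + 5) (A (j + 4) (c x)) := by
      rw [hu4, map_smul, map_smul, map_smul, smul_smul]
      congr 1
      push_cast; ring
    have b1 : A (j + 1) (x + (ε : ℂ) • A (j + 2) u1) = (((1 - ε ^ 2 * b ^ 2) * b : ℝ) : ℂ) • x := by
      have : x + (ε : ℂ) • A (j + 2) u1 = ((1 - ε ^ 2 * b ^ 2 : ℝ) : ℂ) • x := by
        rw [hu1, map_smul, h2, smul_smul, smul_smul]
        nth_rewrite 1 [← one_smul ℂ x]
        rw [← add_smul]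
        congr 1
        push_cast; ring
      rw [this, map_smul, h1, smul_smul]
      congr 1
      push_cast; ring
    have b2 : A (j + 2) (u1 + (ε : ℂ) • c u4)
        = ((-(ε * b ^ 2) : ℝ) : ℂ) • x + ((ε ^ 3 * b : ℝ) : ℂ) • Y := by
      rw [hu1, hu4, map_add, map_smul, map_smul, map_smul, map_smul, h2, smul_smul, smul_smul,
        ← hY]
      congr 2
      · push_cast; ring
      · push_cast; ring
    have b3 : c u4 = ((ε ^ 2 * b : ℝ) : ℂ) • c (c x) := by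
      rw [hu4, map_smul]
    have b0 : (if 1 ≤ j then ‖A (j - 1) (u0 + (ε : ℂ) • A j u1)‖ ^ 2 else 0)
        = (ε ^ 2 * b) ^ 2 * P := by
      rw [hP]
      split_ifs with hj
      · have e' : u0 + (ε : ℂ) • A j u1
            = ((ε ^ 2 * b : ℝ) : ℂ) • (((b ^ 2 : ℝ) : ℂ) • v - A j x) := by
          rw [hu0, hu1, map_smul, smul_smul, smul_sub, smul_smul, sub_eq_add_neg, ← neg_smul]
          congr 2
          · push_cast; ring
          · push_cast; ring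
        rw [e', map_smul, norm_smul_sq]
      · simp
    have n2 : ‖((-(ε * b ^ 2) : ℝ) : ℂ) • x + ((ε ^ 3 * b : ℝ) : ℂ) • Y‖ ^ 2
        = (ε * b ^ 2) ^ 2 * ‖x‖ ^ 2 - 2 * (ε ^ 4 * b ^ 4 * ‖c x‖ ^ 2)
          + (ε ^ 3 * b) ^ 2 * ‖Y‖ ^ 2 := by
      rw [norm_add_sq (𝕜 := ℂ), norm_smul_sq, norm_smul_sq, inner_smul_left, inner_smul_right,
        Complex.conj_ofReal, ← mul_assoc, ← Complex.ofReal_mul]
      have h3 : RCLike.re (((-(ε * b ^ 2) * (ε ^ 3 * b) : ℝ) : ℂ) * ⟪x, Y⟫_ℂ)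
          = -(ε * b ^ 2) * (ε ^ 3 * b) * (b * ‖c x‖ ^ 2) := by
        rw [← hre]
        exact Complex.re_ofReal_mul _ _
      rw [h3]
      ring
    rw [← hc, a1, a2, a3, a4, a5, a0, b0, b1, b2, b3, n2, map_zero, map_zero, norm_zero,
      norm_smul_sq, norm_smul_sq, norm_smul_sq, norm_smul_sq, norm_smul_sq] at hmain
    rw [hD]
    have hpos : 0 < ε ^ 4 * b ^ 2 := by positivity
    have hK : 0 ≤ (ε ^ 3 * b) ^ 2 * ‖Y‖ ^ 2 := by positivity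
    have hfin : ε ^ 4 * b ^ 2 * (‖c (c x)‖ ^ 2 - 2 * b ^ 2 * ‖c x‖ ^ 2 + b ^ 4 * ‖x‖ ^ 2 + P)
        ≤ ε ^ 4 * b ^ 2 * (ε ^ 2 * (b ^ 6 * ‖x‖ ^ 2 + ‖A (j + 5) (A (j + 4) (c x))‖ ^ 2)) := by
      nlinarith [hmain, hK]
    exact le_of_mul_le_mul_left hfin hpos
  set L : ℝ := ‖c (c x) - ((b ^ 2 : ℝ) : ℂ) • x‖ ^ 2 + P with hL
  set K : ℝ := b ^ 6 * ‖x‖ ^ 2 + ‖A (j + 5) (A (j + 4) (c x))‖ ^ 2 with hK
  have hK0 : 0 ≤ K := by positivity
  have hL0 : L ≤ 0 := by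
    by_contra hcon
    push Not at hcon
    have hq1 : 0 < L / (2 * (K + 1)) := by positivity
    have h3 := key (Real.sqrt (L / (2 * (K + 1)))) (Real.sqrt_pos.2 hq1)
    rw [Real.sq_sqrt hq1.le] at h3
    have h4 : L / (2 * (K + 1)) * K < L := by
      rw [div_mul_eq_mul_div, div_lt_iff₀ (by positivity)]
      nlinarith
    linarith
  have hn0 : 0 ≤ ‖c (c x) - ((b ^ 2 : ℝ) : ℂ) • x‖ ^ 2 := by positivity
  constructor
  · have h3 : ‖c (c x) - ((b ^ 2 : ℝ) : ℂ) • x‖ ^ 2 = 0 := by linarith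
    have h4 := norm_eq_zero.1 (pow_eq_zero_iff (two_ne_zero) |>.1 h3)
    exact sub_eq_zero.1 h4
  · intro hj
    have h3 : P = 0 := by linarith
    rw [hP, if_pos hj] at h3
    exact norm_eq_zero.1 (pow_eq_zero_iff (two_ne_zero) |>.1 h3)

end Pool.Agent.X297.CH
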